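import Pool.Agent.H50.FV.Coh

/-!
# Products of five elliptic curves: no zero at the edge of absolute convergence

Let `E_0, ..., E_4` be elliptic curves without complex multiplication over a number field `K`, no two of which are
isogenous over an algebraic closure, with the angles `θ_j(v)` at the primes `v` of `K` (the trace of Frobenius is
`2 √q_v cos θ_j(v)`).  For `K = ℚ`, or `K` totally real, it is known (Harris; Barnet-Lamb, Gee, Geraghty) that
for any TWO of the curves the pairs of traces are distributed by the product of two Sato-Tate laws: `PairLaw`.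
No such law is known for more curves, and of `L(E_0 × ... × E_4, s)` no continuation is known.

The `L`-function of `Hⁱ(X)`, `X = E_0 × ... × E_4`, at `s + i/2`, has the local parameters `coh θ i v`: the
products of `i` of the ten numbers `exp (± i θ_j(v))`.  The part of `H⁵(X)` which is not known is
`H¹(E_0) ⊗ ... ⊗ H¹(E_4)`, with the parameters `tensor θ univ c v` (`c` is a twist).

The theorem: this part has neither a zero nor a pole at any point of the edge where it continues, and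
`|log |L(1 + iτ + ε)|| ≤ 0.99 log (1/ε)` for small `ε` in any case.  So every meromorphic continuation of
`L(Hⁱ(X), s)` to a neighbourhood of `s₀ = i/2 + 1` has at `s₀` the order predicted by Tate's conjecture; it does not
vanish there.

The proof: for nonnegative numbers `x_0, ..., x_4 ≤ 2` we have `x_0 x_1 x_2 x_3 x_4 ≤ ∑_{i<j} g(x_i, x_j)` with
a polynomial `g` whose mean for the product of two Sato-Tate laws is less than `0.099`.
-/

set_option autoImplicit false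
set_option linter.unusedSectionVars false

namespace Pool.Agent.Results.MP_2b9663_nt.FiveCurves

open NumberField IsDedekindDomain Filter Topology MeasureTheory Polynomial

section

variable {K : Type} [Field K] [NumberField K]

/-- The average of `g` over the primes of `K` of norm at most `N`. -/
noncomputable def avg (g : HeightOneSpectrum (𝓞 K) → ℝ) (N : ℕ) : ℝ :=
  (∑ᶠ v : {v : HeightOneSpectrum (𝓞 K) // Ideal.absNorm v.asIdeal ≤ N}, g v.1) /
    (Nat.card {v : HeightOneSpectrum (𝓞 K) // Ideal.absNorm v.asIdeal ≤ N} : ℝ)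

/-- The integral of `f` for the Sato-Tate law on `[-2, 2]`. -/
noncomputable def stIntegral (f : ℝ → ℝ) : ℝ :=
  2 / Real.pi * ∫ t in (0 : ℝ)..Real.pi, f (2 * Real.cos t) * Real.sin t ^ 2

/-- The pairs of traces `(2 cos θ_v, 2 cos θ'_v)` are distributed by the product of two Sato-Tate
laws. -/
def PairLaw (θ θ' : HeightOneSpectrum (𝓞 K) → ℝ) : Prop :=
  ∀ f : ℝ × ℝ → ℝ, Continuous f →
    Tendsto (avg fun v => f (2 * Real.cos (θ v), 2 * Real.cos (θ' v))) atTop
      (𝓝 (stIntegral fun x => stIntegral fun y => f (x, y)))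

/-- `L` is an Euler product with the parameters `α v k`: for all but finitely many primes `v` the factor is
`∏_k (1 - α_{v,k} q_v^{-s})⁻¹`, and for all `v` it is the inverse of a polynomial in `q_v^{-s}` which has no zero with
`1 ≤ Re s`. -/
def IsEulerProduct {κ : Type} [Fintype κ] (α : HeightOneSpectrum (𝓞 K) → κ → ℂ) (L : ℂ → ℂ) : Prop :=
  ∃ B : HeightOneSpectrum (𝓞 K) → ℂ[X],
    (∀ᶠ v in cofinite, B v = ∏ k, (1 - C (α v k) * X)) ∧
    (∀ (v : HeightOneSpectrum (𝓞 K)) (s : ℂ), 1 ≤ s.re →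
      (B v).eval ((Ideal.absNorm v.asIdeal : ℂ) ^ (-s)) ≠ 0) ∧
    ∀ s : ℂ, 1 < s.re → L s = ∏' v, ((B v).eval ((Ideal.absNorm v.asIdeal : ℂ) ^ (-s)))⁻¹

end

/-- The eigenvalues `exp (± i t)`. -/
noncomputable def eig (t : ℝ) (b : Bool) : ℂ := Complex.exp (((if b then t else -t : ℝ) : ℂ) * Complex.I)

section

variable {K : Type} [Field K] [NumberField K]

/-- The parameters of the tensor product of the `H¹(E_j)`, `j ∈ A`, twisted by `c`. -/
noncomputable def tensor (θ : Fin 5 → HeightOneSpectrum (𝓞 K) → ℝ) (A : Finset (Fin 5))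
    (c : HeightOneSpectrum (𝓞 K) → ℂ) (v : HeightOneSpectrum (𝓞 K)) (b : A → Bool) : ℂ :=
  c v * ∏ j : A, eig (θ j v) (b j)

/-- The parameters of `Hⁱ(E_0 × ... × E_4)`, the `i`-th exterior power of the sum of the `H¹(E_j)`: the
products over the sets of `i` of the ten eigenvalues. -/
noncomputable def coh (θ : Fin 5 → HeightOneSpectrum (𝓞 K) → ℝ) (i : ℕ) (v : HeightOneSpectrum (𝓞 K))
    (S : {S : Finset (Fin 5 × Bool) // S.card = i}) : ℂ :=
  ∏ p ∈ S.1, eig (θ p.1 v) p.2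

end

/-- `L` has the order `k` at `s₀`: `ε^{-k} L(s₀ + ε)` has a finite nonzero limit for `ε → 0+`. -/
def HasOrder (L : ℂ → ℂ) (s₀ : ℂ) (k : ℤ) : Prop :=
  ∃ c : ℂ, c ≠ 0 ∧ Tendsto (fun ε : ℝ => (ε : ℂ) ^ (-k) * L (s₀ + ε)) (𝓝[>] 0) (𝓝 c)

section Bridge

open Pool.Agent.TH553.ST Pool.Agent.TH553.RS Pool.Agent.W540.BE
open Pool.Agent.X289.Dens Pool.Agent.X289.Cls Pool.Agent.X289.Uch Pool.Agent.X289.SymM
  Pool.Agent.X289.Three Pool.Agent.X289.Al Pool.Agent.X289.Main Pool.Agent.X289.Multi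
open Pool.Agent.H50.FV

/-- the size -/
theorem size_of_order {L : ℂ → ℂ} {s₀ : ℂ} {k : ℤ} (h : HasOrder L s₀ k) :
    Tendsto (fun ε : ℝ => Real.log ‖L (s₀ + ε)‖ / Real.log (1 / ε)) (𝓝[>] 0)
      (𝓝 (-(k : ℝ))) := by
  obtain ⟨c, h1, h2⟩ := h
  have h3 := h2.norm
  have hc : 0 < ‖c‖ := norm_pos_iff.2 h1
  have h4 := (Real.continuousAt_log hc.ne').tendsto.comp h3
  have hlam : Tendsto (fun ε : ℝ => Real.log (1 / ε)) (𝓝[>] 0) atTop := by
    have := Real.tendsto_log_atTop.comp (tendsto_inv_nhdsGT_zero (𝕜 := ℝ))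
    refine this.congr fun ε => ?_
    simp [Function.comp]
  have h5 : Tendsto (fun ε : ℝ => Real.log ‖(ε : ℂ) ^ (-k) * L (s₀ + ε)‖ / Real.log (1 / ε))
      (𝓝[>] 0) (𝓝 0) := h4.div_atTop hlam
  have h6 := h5.sub (tendsto_const_nhds (x := (k : ℝ)))
  rw [zero_sub] at h6
  refine h6.congr' ?_
  have h7 : ∀ᶠ ε : ℝ in 𝓝[>] 0, (ε : ℂ) ^ (-k) * L (s₀ + ε) ≠ 0 := h2.eventually_ne h1
  filter_upwards [h7, self_mem_nhdsWithin, hlam.eventually (eventually_gt_atTop 0)]
    with ε h8 h9 h10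
  have hε : (0 : ℝ) < ε := h9
  have h11 : L (s₀ + ε) ≠ 0 := right_ne_zero_of_mul h8
  have h12 : ‖(ε : ℂ) ^ (-k)‖ = ε ^ (-k) := by
    rw [norm_zpow, Complex.norm_real, Real.norm_eq_abs, abs_of_pos hε]
  rw [norm_mul, h12, Real.log_mul (zpow_pos hε _).ne' (norm_ne_zero_iff.2 h11), Real.log_zpow]
  rw [one_div, Real.log_inv] at h10 ⊢
  have h13 : Real.log ε ≠ 0 := (neg_pos.1 h10).ne
  push_cast
  field_simp
  ring

variable {K : Type} [Field K] [NumberField K]

theorem avg_eq (g : HeightOneSpectrum (𝓞 K) → ℝ) : avg g = mn g := by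
  funext N
  have hs : ∀ v, v ∈ upto K N ↔ Ideal.absNorm v.asIdeal ≤ N := fun v => mem_upto
  let e : {v : HeightOneSpectrum (𝓞 K) // Ideal.absNorm v.asIdeal ≤ N} ≃ (upto K N) :=
    Equiv.subtypeEquivRight fun v => (hs v).symm
  have hfin : Finite {v : HeightOneSpectrum (𝓞 K) // Ideal.absNorm v.asIdeal ≤ N} :=
    Finite.of_equiv _ e.symm
  unfold avg mn
  have h1 : (∑ᶠ v : {v : HeightOneSpectrum (𝓞 K) // Ideal.absNorm v.asIdeal ≤ N}, g v.1) =
      ∑ v ∈ upto K N, g v := by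
    rw [← Finset.sum_coe_sort, ← finsum_eq_sum_of_fintype, ← finsum_comp_equiv e]
    rfl
  have h2 : Nat.card {v : HeightOneSpectrum (𝓞 K) // Ideal.absNorm v.asIdeal ≤ N} =
      (upto K N).card := by
    rw [Nat.card_congr e, Nat.card_eq_fintype_card, Fintype.card_coe]
  rw [h1, h2, smul_eq_mul, div_eq_inv_mul]

theorem st_eq (f : ℝ → ℝ) : stIntegral f = J (dk 1) fun x => f (2 * x) := by
  unfold stIntegral J dk
  have e : ∀ t : ℝ, f (2 * Real.cos t) * (2 * Real.sin ((1 : ℕ) * t) ^ 2) =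
      2 * (f (2 * Real.cos t) * Real.sin t ^ 2) := fun t => by
    rw [Nat.cast_one, one_mul]
    ring
  simp only [e]
  rw [intervalIntegral.integral_const_mul]
  ring

theorem pl_of {θ θ' : HeightOneSpectrum (𝓞 K) → ℝ} (h : PairLaw θ θ') : PL θ θ' := by
  intro f g hf hg
  have h1 := h (fun p => f (p.1 / 2) * g (p.2 / 2))
    ((hf.comp (continuous_fst.div_const 2)).mul (hg.comp (continuous_snd.div_const 2)))
  have e : ∀ t : ℝ, 2 * t / 2 = t := fun t => by ring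
  simp only [e] at h1
  rw [avg_eq] at h1
  have e2 : (stIntegral fun x => stIntegral fun y => f (x / 2) * g (y / 2)) =
      J (dk 1) f * J (dk 1) g := by
    simp only [st_eq, e, J_smul]
    have e3 : (fun x => f x * J (dk 1) g) = fun x => J (dk 1) g * f x := by
      funext x
      ring
    rw [e3, J_smul]
    ring
  rw [e2] at h1
  exact h1

/-- the size of an Euler product and the mean of the traces -/
theorem size_euler {κ : Type} [Fintype κ] {α : HeightOneSpectrum (𝓞 K) → κ → ℂ} {L : ℂ → ℂ}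
    (hL : IsEulerProduct α L) (hα : ∀ v k, ‖α v k‖ = 1) (τ : ℝ) :
    (∀ᶠ ε : ℝ in 𝓝[>] 0, L (1 + τ * Complex.I + ε) ≠ 0) ∧
    Tendsto (fun ε : ℝ => qt (nm K)
      (fun v => ((∑ k, α v k) * ((nm K v : ℕ) : ℂ) ^ (-(τ * Complex.I : ℂ))).re) ε -
      Real.log ‖L (1 + τ * Complex.I + ε)‖ / Real.log (1 / ε)) (𝓝[>] 0) (𝓝 0) := by
  obtain ⟨B, h1, h2, h3⟩ := hL
  refine size_unit (sysF K) (fun v (j : Fin (Fintype.card κ)) => α v ((Fintype.equivFin κ).symm j))
    (Filter.Eventually.of_forall fun v j => hα v _) (t := fun v => ∑ k, α v k)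
    (C := (Fintype.card κ : ℝ)) (fun v => (norm_sum_le _ _).trans (by simp [hα]))
    (Filter.Eventually.of_forall fun v =>
      Fintype.sum_equiv (Fintype.equivFin κ).symm _ _ fun j => rfl) τ B ?_
    (fun v => h2 v _ (by simp)) L h3
  filter_upwards [h1] with v hv z
  rw [hv, eval_prod]
  simp only [eval_sub, eval_one, eval_mul, eval_C, eval_X]
  exact (Fintype.prod_equiv (Fintype.equivFin κ).symm _ _ fun j => rfl).symm

theorem bd_re {κ : Type} [Fintype κ] {α : HeightOneSpectrum (𝓞 K) → κ → ℂ} (hα : ∀ v k, ‖α v k‖ = 1) (τ : ℝ) :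
    Bd fun v => ((∑ k, α v k) * ((nm K v : ℕ) : ℂ) ^ (-(τ * Complex.I : ℂ))).re := by
  refine ⟨Fintype.card κ, fun v => (Complex.abs_re_le_norm _).trans ?_⟩
  rw [norm_mul]
  have h1 : ‖((nm K v : ℕ) : ℂ) ^ (-(τ * Complex.I : ℂ))‖ = 1 :=
    norm_cpow_I (by have := (sysF K).sys.two_le v; omega) τ
  rw [h1, mul_one]
  exact (norm_sum_le _ _).trans (by simp [hα])

/-- the order is the negative of a mean value -/
theorem mean_of_order {κ : Type} [Fintype κ] {α : HeightOneSpectrum (𝓞 K) → κ → ℂ} {L : ℂ → ℂ}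
    (hL : IsEulerProduct α L) (hα : ∀ v k, ‖α v k‖ = 1) {τ : ℝ} {k : ℤ}
    (h : HasOrder L (1 + τ * Complex.I) k) {U : Ultrafilter ℝ} (hU : (U : Filter ℝ) ≤ 𝓝[>] 0) :
    (M (nm K) U fun v => ((∑ k, α v k) * ((nm K v : ℕ) : ℂ) ^ (-(τ * Complex.I : ℂ))).re) = -k := by
  have h2 := (size_euler hL hα τ).2.add (size_of_order h)
  rw [zero_add] at h2
  exact M_of_tendsto hU (h2.congr fun ε => by ring)

/-- the order of a continuation is the negative of a mean value -/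
theorem mean_of_cont {κ : Type} [Fintype κ] {α : HeightOneSpectrum (𝓞 K) → κ → ℂ} {L : ℂ → ℂ}
    (hL : IsEulerProduct α L) (hα : ∀ v k, ‖α v k‖ = 1) {τ : ℝ} {Λ : ℂ → ℂ}
    (h1 : MeromorphicAt Λ (1 + τ * Complex.I))
    (h2 : ∀ᶠ s in 𝓝 ((1 : ℂ) + τ * Complex.I), (1 : ℝ) < s.re → Λ s = L s) : ∃ e : ℤ,
    meromorphicOrderAt Λ (1 + τ * Complex.I) = e ∧ ∀ U : Ultrafilter ℝ, (U : Filter ℝ) ≤ 𝓝[>] 0 →
      (M (nm K) U fun v => ((∑ k, α v k) * ((nm K v : ℕ) : ℂ) ^ (-(τ * Complex.I : ℂ))).re) = -e := by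
  obtain ⟨e, h3, h4⟩ := order_unit (size_euler hL hα τ).1 h1 h2
  refine ⟨e, h3, fun U hU => M_of_tendsto hU ?_⟩
  have h5 := (size_euler hL hα τ).2.add h4
  rw [zero_add] at h5
  exact h5.congr fun ε => by ring

theorem norm_eig (t : ℝ) (b : Bool) : ‖eig t b‖ = 1 := norm_ev t b

theorem norm_tensor (θ : Fin 5 → HeightOneSpectrum (𝓞 K) → ℝ) (A : Finset (Fin 5))
    {c : HeightOneSpectrum (𝓞 K) → ℂ} (hc : ∀ v, ‖c v‖ = 1) (v : HeightOneSpectrum (𝓞 K)) (b : A → Bool) :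
    ‖tensor θ A c v b‖ = 1 := by
  unfold tensor
  rw [norm_mul, hc, one_mul, norm_prod]
  exact Finset.prod_eq_one fun j _ => norm_eig _ _

theorem norm_coh (θ : Fin 5 → HeightOneSpectrum (𝓞 K) → ℝ) (i : ℕ) (v : HeightOneSpectrum (𝓞 K))
    (S : {S : Finset (Fin 5 × Bool) // S.card = i}) : ‖coh θ i v S‖ = 1 := by
  unfold coh
  rw [norm_prod]
  exact Finset.prod_eq_one fun j _ => norm_eig _ _

theorem sum_tensor (θ : Fin 5 → HeightOneSpectrum (𝓞 K) → ℝ) (A : Finset (Fin 5))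
    (c : HeightOneSpectrum (𝓞 K) → ℂ) (v : HeightOneSpectrum (𝓞 K)) :
    ∑ b, tensor θ A c v b = ((∏ j ∈ A, (2 * Real.cos (θ j v)) : ℝ) : ℂ) * c v := by
  classical
  unfold tensor
  rw [← Finset.mul_sum, mul_comm]
  congr 1
  rw [← Finset.prod_coe_sort A, Complex.ofReal_prod]
  have h := Finset.prod_univ_sum (fun _ : A => (Finset.univ : Finset Bool)) (fun j b => eig (θ j v) b)
  rw [Fintype.piFinset_univ] at h
  rw [← h]
  refine Finset.prod_congr rfl fun j _ => ?_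
  rw [Fintype.sum_bool]
  exact ev_add _

theorem sum_coh (θ : Fin 5 → HeightOneSpectrum (𝓞 K) → ℝ) (i : ℕ) (v : HeightOneSpectrum (𝓞 K)) :
    ∑ S, coh θ i v S =
      ((∑ A : Finset (Fin 5), (nn A i : ℝ) * ∏ j ∈ A, (2 * Real.cos (θ j v)) : ℝ) : ℂ) :=
  coh_sum (fun j => θ j v) i

/-- the weight -/
noncomputable def wt (K : Type) [Field K] [NumberField K] (c : HeightOneSpectrum (𝓞 K) → ℂ) (τ : ℝ)
    (v : HeightOneSpectrum (𝓞 K)) : ℝ :=
  (c v * ((nm K v : ℕ) : ℂ) ^ (-(τ * Complex.I : ℂ))).re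

theorem abs_wt {c : HeightOneSpectrum (𝓞 K) → ℂ} (hc : ∀ v, ‖c v‖ = 1) (τ : ℝ)
    (v : HeightOneSpectrum (𝓞 K)) : |wt K c τ v| ≤ 1 := by
  refine (Complex.abs_re_le_norm _).trans ?_
  rw [norm_mul, hc, one_mul]
  exact (norm_cpow_I (by have := (sysF K).sys.two_le v; omega) τ).le

theorem re_tensor (θ : Fin 5 → HeightOneSpectrum (𝓞 K) → ℝ) (A : Finset (Fin 5))
    (c : HeightOneSpectrum (𝓞 K) → ℂ) (τ : ℝ) (v : HeightOneSpectrum (𝓞 K)) :
    ((∑ b, tensor θ A c v b) * ((nm K v : ℕ) : ℂ) ^ (-(τ * Complex.I : ℂ))).re =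
      (∏ j ∈ A, (2 * Real.cos (θ j v))) * wt K c τ v := by
  rw [sum_tensor, mul_assoc, Complex.re_ofReal_mul]
  rfl

theorem re_coh (θ : Fin 5 → HeightOneSpectrum (𝓞 K) → ℝ) (i : ℕ) (v : HeightOneSpectrum (𝓞 K)) :
    ((∑ S, coh θ i v S) * ((nm K v : ℕ) : ℂ) ^ (-(((0 : ℝ) : ℂ) * Complex.I : ℂ))).re =
      ∑ A : Finset (Fin 5), (nn A i : ℝ) * ∏ j ∈ A, (2 * Real.cos (θ j v)) := by
  rw [sum_coh, Complex.re_ofReal_mul]
  simp

/-- an ultrafilter -/
theorem exists_U : ∃ U : Ultrafilter ℝ, (U : Filter ℝ) ≤ 𝓝[>] 0 :=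
  ⟨Ultrafilter.of (𝓝[>] 0), Ultrafilter.of_le _⟩

/-- the part which is not known -/
theorem part_one {θ : Fin 5 → HeightOneSpectrum (𝓞 K) → ℝ} (hp : ∀ i j, i ≠ j → PL (θ i) (θ j))
    {c : HeightOneSpectrum (𝓞 K) → ℂ} (hc : ∀ v, ‖c v‖ = 1) {L : ℂ → ℂ}
    (hL : IsEulerProduct (tensor θ Finset.univ c) L) (τ : ℝ) :
    (∀ᶠ ε : ℝ in 𝓝[>] 0, L (1 + τ * Complex.I + ε) ≠ 0) ∧
    (∀ᶠ ε : ℝ in 𝓝[>] 0, |Real.log ‖L (1 + τ * Complex.I + ε)‖| ≤ 99 / 100 * Real.log (1 / ε)) ∧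
    (∀ k : ℤ, HasOrder L (1 + τ * Complex.I) k → k = 0) ∧
    ∀ Λ : ℂ → ℂ, MeromorphicAt Λ (1 + τ * Complex.I) →
      (∀ᶠ s in 𝓝 ((1 : ℂ) + τ * Complex.I), (1 : ℝ) < s.re → Λ s = L s) →
      meromorphicOrderAt Λ (1 + τ * Complex.I) = 0 := by
  have hn := norm_tensor θ Finset.univ hc
  have hs := size_euler hL hn τ
  have hM : ∀ U : Ultrafilter ℝ, (U : Filter ℝ) ≤ 𝓝[>] 0 → |M (nm K) U fun v =>
      ((∑ b, tensor θ Finset.univ c v b) * ((nm K v : ℕ) : ℂ) ^ (-(τ * Complex.I : ℂ))).re| < 99 / 100 := by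
    intro U hU
    simp only [re_tensor]
    exact M_five_lt hU hp (abs_wt hc τ)
  have hint : ∀ e : ℤ, |(-(e : ℝ))| < 99 / 100 → e = 0 := by
    intro e he
    rw [abs_neg] at he
    have h1 : (|e| : ℝ) < 1 := he.trans (by norm_num)
    have h2 : |e| < 1 := by exact_mod_cast h1
    exact Int.abs_lt_one_iff.1 h2
  refine ⟨hs.1, ?_, fun k hk => ?_, fun Λ h1 h2 => ?_⟩
  · obtain ⟨δ, hδ, h1⟩ : ∃ δ : ℝ, 0 < δ ∧ ∀ᶠ ε : ℝ in 𝓝[>] 0,
        |100 / 99 * (Real.log ‖L (1 + τ * Complex.I + ε)‖ / Real.log (1 / ε))| ≤ 1 - δ := by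
      refine unif_lt fun U hU => ?_
      refine ⟨100 / 99 * M (nm K) U fun v =>
        ((∑ b, tensor θ Finset.univ c v b) * ((nm K v : ℕ) : ℂ) ^ (-(τ * Complex.I : ℂ))).re, ?_, ?_⟩
      · have h1 := M_lim (sysF K) hU (bd_re hn τ)
        have h2 := h1.sub (hs.2.mono_left hU)
        rw [sub_zero] at h2
        refine (h2.const_mul (100 / 99)).congr fun ε => ?_
        ring
      · rw [abs_mul, abs_of_pos (by norm_num : (0 : ℝ) < 100 / 99)]
        have := hM U hU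
        linarith
    have hlam : ∀ᶠ ε : ℝ in 𝓝[>] 0, 0 < Real.log (1 / ε) := by
      have h3 : Tendsto (fun ε : ℝ => Real.log (1 / ε)) (𝓝[>] 0) atTop := by
        have := Real.tendsto_log_atTop.comp (tendsto_inv_nhdsGT_zero (𝕜 := ℝ))
        refine this.congr fun ε => ?_
        simp [Function.comp]
      exact h3.eventually (eventually_gt_atTop 0)
    filter_upwards [h1, hlam] with ε h4 h5
    rw [abs_mul, abs_of_pos (by norm_num : (0 : ℝ) < 100 / 99), abs_div, abs_of_pos h5] at h4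
    have h6 : |Real.log ‖L (1 + τ * Complex.I + ε)‖| / Real.log (1 / ε) ≤ 99 / 100 := by linarith
    rwa [div_le_iff₀ h5] at h6
  · obtain ⟨U, hU⟩ := exists_U
    have h3 := hM U hU
    rw [mean_of_order hL hn hk hU] at h3
    exact hint k h3
  · obtain ⟨e, h3, h4⟩ := mean_of_cont hL hn h1 h2
    obtain ⟨U, hU⟩ := exists_U
    have h5 := hM U hU
    rw [h4 U hU] at h5
    rw [h3, hint e h5]
    rfl

/-- the predicted order -/
theorem part_two {θ : Fin 5 → HeightOneSpectrum (𝓞 K) → ℝ} (hp : ∀ i j, i ≠ j → PL (θ i) (θ j))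
    (h34 : ∀ A : Finset (Fin 5), A.card = 3 ∨ A.card = 4 →
      ∃ L, IsEulerProduct (tensor θ A fun _ => 1) L ∧ HasOrder L 1 0) (i : ℕ) {U : Ultrafilter ℝ}
    (hU : (U : Filter ℝ) ≤ 𝓝[>] 0) {e : ℤ}
    (he : (M (nm K) U fun v =>
      ((∑ S, coh θ i v S) * ((nm K v : ℕ) : ℂ) ^ (-(((0 : ℝ) : ℂ) * Complex.I : ℂ))).re) = -e) :
    e = -((if Even i then Nat.choose 5 (i / 2) else 0 : ℕ) : ℤ) := by
  have h0 : ∀ A : Finset (Fin 5), A.card = 3 ∨ A.card = 4 →
      (M (nm K) U fun v => ∏ j ∈ A, (2 * Real.cos (θ j v))) = 0 := by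
    intro A hA
    obtain ⟨L, h1, h2⟩ := h34 A hA
    have hn := norm_tensor θ A (c := fun _ => (1 : ℂ)) fun _ => norm_one
    have h3 : HasOrder L (1 + ((0 : ℝ) : ℂ) * Complex.I) 0 := by simpa using h2
    have h4 := mean_of_order h1 hn h3 hU
    simp only [re_tensor] at h4
    have e1 : (fun v => (∏ j ∈ A, (2 * Real.cos (θ j v))) * wt K (fun _ => 1) 0 v) =
        fun v => ∏ j ∈ A, (2 * Real.cos (θ j v)) := by
      funext v
      simp [wt]
    rw [e1] at h4
    simpa using h4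
  simp only [re_coh] at he
  rw [M_coh hU hp h0 i] at he
  have h5 : |M (nm K) U fun v => ∏ j, (2 * Real.cos (θ j v))| < 99 / 100 := by
    have := M_five_lt hU hp (w := fun _ => 1) (fun _ => by simp)
    simpa using this
  by_cases hi : i = 5
  · have hodd : ¬ Even i := by rw [hi]; decide
    rw [if_neg hodd, if_pos hi, one_mul] at he
    rw [if_neg hodd]
    have h6 : (M (nm K) U fun v => ∏ j, (2 * Real.cos (θ j v))) = -(e : ℝ) := by
      push_cast at he
      linarith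
    rw [h6, abs_neg] at h5
    have h7 : (|e| : ℝ) < 1 := h5.trans (by norm_num)
    have h8 : |e| < 1 := by exact_mod_cast h7
    simpa using Int.abs_lt_one_iff.1 h8
  · rw [if_neg hi, zero_mul, add_zero] at he
    have h6 : ((if Even i then Nat.choose 5 (i / 2) else 0 : ℕ) : ℤ) = -e := by exact_mod_cast he
    omega

end Bridge

/-- **Products of five elliptic curves.**  Let `K` be a number field and `θ_0, ..., θ_4` families of angles for
the primes of `K` such that for `i ≠ j` the pairs of traces `(2 cos θ_i, 2 cos θ_j)` are distributed by the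
product of two Sato-Tate laws.

1. Let `c` be any function on the primes with `|c| = 1` and let `L` be an Euler product with the parameters of
   `H¹(E_0) ⊗ ... ⊗ H¹(E_4) ⊗ c`.  For every real `τ` and all small `ε > 0`,
   `|log |L(1 + iτ + ε)|| ≤ 0.99 log (1/ε)`.  If `L` has an order at `1 + iτ` then it is `0`, and no meromorphic
   continuation of `L` to a neighbourhood of `1 + iτ` has a zero or a pole at `1 + iτ`.
2. Suppose that for any three and any four of the curves the `L`-function of the tensor product has the order `0`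
   at `1` (for `K = ℚ` this is known).  For every `i` and every Euler product `L` with the parameters of
   `Hⁱ(E_0 × ... × E_4)`, normalised so that the edge is `Re s = 1`: if `L` has an order at `1` then it is
   `- C(5, i/2)` for even `i` and `0` for odd `i`, and the same holds for the order of every meromorphic
   continuation of `L` to a neighbourhood of `1`. -/
theorem result {K : Type} [Field K] [NumberField K] (θ : Fin 5 → HeightOneSpectrum (𝓞 K) → ℝ)
    (hpair : ∀ i j, i ≠ j → PairLaw (θ i) (θ j)) :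
    (∀ c : HeightOneSpectrum (𝓞 K) → ℂ, (∀ v, ‖c v‖ = 1) → ∀ L : ℂ → ℂ,
      IsEulerProduct (tensor θ Finset.univ c) L → ∀ τ : ℝ,
      (∀ᶠ ε : ℝ in 𝓝[>] 0, L (1 + τ * Complex.I + ε) ≠ 0) ∧
      (∀ᶠ ε : ℝ in 𝓝[>] 0, |Real.log ‖L (1 + τ * Complex.I + ε)‖| ≤ 99 / 100 * Real.log (1 / ε)) ∧
      (∀ k : ℤ, HasOrder L (1 + τ * Complex.I) k → k = 0) ∧
      ∀ Λ : ℂ → ℂ, MeromorphicAt Λ (1 + τ * Complex.I) →
        (∀ᶠ s in 𝓝 ((1 : ℂ) + τ * Complex.I), (1 : ℝ) < s.re → Λ s = L s) →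
        meromorphicOrderAt Λ (1 + τ * Complex.I) = 0) ∧
    ((∀ A : Finset (Fin 5), A.card = 3 ∨ A.card = 4 →
        ∃ L, IsEulerProduct (tensor θ A fun _ => 1) L ∧ HasOrder L 1 0) →
      ∀ (i : ℕ) (L : ℂ → ℂ), IsEulerProduct (coh θ i) L →
        (∀ k : ℤ, HasOrder L 1 k → k = -((if Even i then Nat.choose 5 (i / 2) else 0 : ℕ) : ℤ)) ∧
        ∀ Λ : ℂ → ℂ, MeromorphicAt Λ 1 → (∀ᶠ s in 𝓝 (1 : ℂ), (1 : ℝ) < s.re → Λ s = L s) →
          meromorphicOrderAt Λ 1 =
            ((-((if Even i then Nat.choose 5 (i / 2) else 0 : ℕ) : ℤ) : ℤ) : WithTop ℤ)) := by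
  have hp : ∀ i j, i ≠ j → Pool.Agent.X289.Three.PL (θ i) (θ j) := fun i j h => pl_of (hpair i j h)
  refine ⟨fun c hc L hL τ => part_one hp hc hL τ, fun h34 i L hL => ⟨fun k hk => ?_, fun Λ h1 h2 => ?_⟩⟩
  · obtain ⟨U, hU⟩ := exists_U
    have h0 : HasOrder L (1 + ((0 : ℝ) : ℂ) * Complex.I) k := by simpa using hk
    exact part_two hp h34 i hU (mean_of_order hL (norm_coh θ i) h0 hU)
  · have e0 : (1 : ℂ) + ((0 : ℝ) : ℂ) * Complex.I = 1 := by simp
    obtain ⟨e, h3, h4⟩ := mean_of_cont hL (norm_coh θ i) (τ := 0) (Λ := Λ) (by rw [e0]; exact h1)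
      (by rw [e0]; exact h2)
    obtain ⟨U, hU⟩ := exists_U
    have h5 := part_two hp h34 i hU (h4 U hU)
    rw [e0] at h3
    rw [h3, h5]

end Pool.Agent.Results.MP_2b9663_nt.FiveCurves
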